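import Pool.Agent.TWF.Main
import Pool.Agent.TWF.Bip

set_option autoImplicit false

/-!
# Two-factors in 4-connected graphs that are close to planar
-/

namespace Pool.Agent.Results.MP_3f932e_co.TwoFactor

open Pool.Agent.TWF

/-- Every 4-connected graph from which at most five edges can be deleted so that the remaining
graph satisfies the planarity criterion of MacLane has a 2-factor. -/
theorem result :
    ∀ (V : Type) [Fintype V] [DecidableEq V] (G : SimpleGraph V),
      5 ≤ Fintype.card V →
      (∀ S : Finset V, S.card ≤ 3 → ∀ u v : V, u ∉ S → v ∉ S →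
        ∃ p : G.Walk u v, ∀ w ∈ p.support, w ∉ S) →
      (∃ E' : Finset (Sym2 V), E'.card ≤ 5 ∧ MacLane (G.deleteEdges (E' : Set (Sym2 V)))) →
      ∃ F : SimpleGraph V, F ≤ G ∧ ∀ v : V, {w : V | F.Adj v w}.ncard = 2 := by
  intro V _ _ G h5 h4 hE
  obtain ⟨E', hE', hM⟩ := hE
  by_contra hcon
  have h6 := six_le (E' := E') h5 h4 (SimpleGraph.deleteEdges_le _) (fun u v huv hn => ?_)
    (bipSparse hM) hcon
  · omega
  · by_contra h7
    apply hn
    rw [SimpleGraph.deleteEdges_adj]
    exact ⟨huv, h7⟩

end Pool.Agent.Results.MP_3f932e_co.TwoFactor
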